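import Pool.Agent.Helper50.BL.Stmts
import Pool.Agent.Helper50.BL.Base

/-! # Concentration of the number of staying points -/

set_option autoImplicit false

namespace Pool.Agent.Helper50.BL

open Finset
open scoped Classical

noncomputable section

/-- centred indicator of staying -/
def shr_f {V : Type} (X : Finset V) (v : V) (a : SignType) : ℝ :=
  if v ∈ X then (if a = 0 then 1 / 2 else -(1 / 2)) else 0

theorem shr_sum {V : Type} [Fintype V] [DecidableEq V] (X : Finset V) (ξ : V → SignType) :
    ∑ v, shr_f X v (ξ v) = (#(stay ξ X) : ℝ) - (#X : ℝ) / 2 := by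
  have h1 : ∑ v, shr_f X v (ξ v) = ∑ v ∈ X, (if ξ v = 0 then (1 / 2 : ℝ) else -(1 / 2)) := by
    rw [← Finset.sum_filter_add_sum_filter_not univ (fun v => v ∈ X)]
    have h2 : ∑ v ∈ univ.filter (fun v => ¬ v ∈ X), shr_f X v (ξ v) = 0 := by
      refine Finset.sum_eq_zero fun v hv => ?_
      have hv' := (Finset.mem_filter.1 hv).2
      simp only [shr_f, hv', if_false]
    have h3 : univ.filter (fun v => v ∈ X) = X := by
      ext v
      simp
    rw [h2, add_zero, h3]
    refine Finset.sum_congr rfl fun v hv => ?_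
    simp only [shr_f, hv, if_true]
  rw [h1]
  have h4 : ∀ v ∈ X, (if ξ v = 0 then (1 / 2 : ℝ) else -(1 / 2))
      = (if ξ v = 0 then (1 : ℝ) else 0) - 1 / 2 := by
    intro v _
    split_ifs <;> norm_num
  rw [Finset.sum_congr rfl h4, Finset.sum_sub_distrib, Finset.sum_const, nsmul_eq_mul]
  have h5 : ∑ v ∈ X, (if ξ v = 0 then (1 : ℝ) else 0) = (#(stay ξ X) : ℝ) := by
    rw [← Finset.sum_filter, Finset.sum_const, nsmul_eq_mul, mul_one]
    rfl
  rw [h5]
  ring

theorem shr_mean {V : Type} (X : Finset V) (y : V → ℝ) (v : V) :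
    ∑ a, mw y v a * shr_f X v a = 0 := by
  have hu : (univ : Finset SignType) = {0, -1, 1} := rfl
  rw [hu]
  rw [Finset.sum_insert (by decide), Finset.sum_insert (by decide), Finset.sum_singleton]
  have n1 : ((-1 : SignType) = 0) = False := by simp
  have n2 : ((1 : SignType) = 0) = False := by simp
  have n3 : ((-1 : SignType) = 1) = False := by simp
  by_cases hv : v ∈ X
  · simp only [mw, shr_f, hv, if_true, n1, n2, n3, if_false]
    ring
  · simp only [shr_f, hv, if_false, mul_zero, add_zero]

theorem st_SHR (hH : ST_HOEF) (hG : ST_GB) : ST_SHR := by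
  intro V _ _ y η X hy hη
  refine ⟨?_, ?_⟩
  · intro w w' hw
    have : stay w X = stay w' X := by
      unfold stay
      refine Finset.filter_congr fun x hx => ?_
      rw [hw x hx]
    show (_ < |(#(stay w X) : ℝ) - _|) ↔ (_ < |(#(stay w' X) : ℝ) - _|)
    rw [this]
  · have hW : IsW (mw y) := hG.1 V y hy
    rcases X.eq_empty_or_nonempty with hX | hX
    · have h0 : Pr (mw y) (fun ξ => η * (#X : ℝ) < |(#(stay ξ X) : ℝ) - (#X : ℝ) / 2|) = 0 := by
        refine Pr_false (mw y) fun ξ => ?_
        subst hX
        simp [stay]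
      rw [h0]
      positivity
    · have hc : (0 : ℝ) < (#X : ℝ) := by exact_mod_cast hX.card_pos
      have e1 : -(2 * (η * (#X : ℝ)) ^ 2 / (#X : ℝ)) = -(2 * η ^ 2 * (#X : ℝ)) := by
        field_simp
      have hcs : ∑ v, (if v ∈ X then (1 : ℝ) else 0) ^ 2 ≤ (#X : ℝ) := by
        have : ∀ v : V, (if v ∈ X then (1 : ℝ) else 0) ^ 2 = if v ∈ X then (1 : ℝ) else 0 := by
          intro v
          split_ifs <;> norm_num
        rw [Finset.sum_congr rfl fun v _ => this v, ← Finset.sum_filter, Finset.sum_const,
          nsmul_eq_mul, mul_one]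
        have h3 : univ.filter (fun v => v ∈ X) = X := by
          ext v
          simp
        rw [h3]
      have A1 := hH V SignType (mw y) hW (fun v a => shr_f X v a)
        (fun v => if v ∈ X then -(1 / 2) else 0) (fun v => if v ∈ X then 1 else 0) (#X : ℝ)
        (η * (#X : ℝ))
        (by
          intro v a
          unfold shr_f
          split_ifs <;> constructor <;> norm_num)
        (fun v => shr_mean X y v) hcs hc (by positivity)
      have A2 := hH V SignType (mw y) hW (fun v a => - shr_f X v a)
        (fun v => if v ∈ X then -(1 / 2) else 0) (fun v => if v ∈ X then 1 else 0) (#X : ℝ)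
        (η * (#X : ℝ))
        (by
          intro v a
          unfold shr_f
          split_ifs <;> constructor <;> norm_num)
        (fun v => by
          have := shr_mean X y v
          simp only [mul_neg, Finset.sum_neg_distrib, this, neg_zero])
        hcs hc (by positivity)
      rw [e1] at A1 A2
      have B : Pr (mw y) (fun ξ => η * (#X : ℝ) < |(#(stay ξ X) : ℝ) - (#X : ℝ) / 2|)
          ≤ Pr (mw y) (fun ξ => (η * (#X : ℝ) ≤ ∑ v, shr_f X v (ξ v)) ∨
            (η * (#X : ℝ) ≤ ∑ v, - shr_f X v (ξ v))) := by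
        refine Pr_mono hW fun ξ hξ => ?_
        rw [Finset.sum_neg_distrib, shr_sum]
        rcases abs_cases ((#(stay ξ X) : ℝ) - (#X : ℝ) / 2) with h | h
        · left
          rw [h.1] at hξ
          exact hξ.le
        · right
          rw [h.1] at hξ
          exact hξ.le
      have C := Pr_or hW (fun ξ => η * (#X : ℝ) ≤ ∑ v, shr_f X v (ξ v))
        (fun ξ => η * (#X : ℝ) ≤ ∑ v, - shr_f X v (ξ v))
      linarith

end

end Pool.Agent.Helper50.BL
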